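import Mathlib
import Pool.Agent.H39R3.PS.Defs
import Pool.Agent.H830R3.PB.T2

/-! helper39's project H39-PAL5, task SB (helper612): port of `Pool.Agent.H985R2.Pal.sqB` to base `b`. -/

set_option autoImplicit false

namespace Pool.Agent.H612K.PSB

open Finset Pool.Agent.Helper112 Pool.Agent.H39R3.PB Pool.Agent.H39R3.PS
open Pool.Agent.H830R3.PB.T2 (NN NN_inj NN_le inner_sum)

theorem EM_block {b : ℕ} (L A J M : ℕ) (hM : 0 < M) :
    EM M (fun α => Ps b L A J α ^ 2) =
      (∑ p : (Fin J → Fin b) × (Fin J → Fin b),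
        if (M : ℤ) ∣ ((NN b L A J p.1 : ℤ) - NN b L A J p.2) then (1 : ℝ) else 0) / b ^ (2 * J) := by
  have hM1 : (M : ℝ) ≠ 0 := by exact_mod_cast hM.ne'
  have h1 : ∀ p : (Fin J → Fin b) × (Fin J → Fin b),
      (if (M : ℤ) ∣ ((NN b L A J p.1 : ℤ) - NN b L A J p.2) then (M : ℝ) else 0) =
        (M : ℝ) * (if (M : ℤ) ∣ ((NN b L A J p.1 : ℤ) - NN b L A J p.2) then (1 : ℝ) else 0) := by
    intro p
    split_ifs <;> simp
  unfold EM
  rw [inner_sum L A J M hM, sum_congr rfl fun p _ => h1 p, ← mul_sum]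
  rw [div_right_comm, mul_div_cancel_left₀ _ hM1]

theorem pair {b : ℕ} (hb : 2 ≤ b) (L A J P : ℕ) (T : ℝ) (hA : A + J ≤ L)
    (hT : ∀ n : ℕ, 1 ≤ n → n ≤ b ^ (2 * L + 1) → (n.divisors.card : ℝ) ≤ T) (hT1 : 0 ≤ T)
    (p : (Fin J → Fin b) × (Fin J → Fin b)) :
    (∑ m ∈ (Ico P (2 * P)).filter (fun m => m.Coprime (2 * b)),
      if ((m ^ 2 : ℕ) : ℤ) ∣ ((NN b L A J p.1 : ℤ) - NN b L A J p.2) then (1 : ℝ) else 0) ≤
        (if p.1 = p.2 then (P : ℝ) else 0) + T := by
  rw [← Finset.sum_filter, Finset.sum_const, nsmul_eq_mul, mul_one]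
  split_ifs with hxy
  · have : (((Ico P (2 * P)).filter (fun m => m.Coprime (2 * b))).filter
        (fun m => ((m ^ 2 : ℕ) : ℤ) ∣ (NN b L A J p.1 : ℤ) - NN b L A J p.2)).card ≤ P := by
      refine (Finset.card_filter_le _ _).trans ((Finset.card_filter_le _ _).trans ?_)
      rw [Nat.card_Ico]; omega
    have : ((((Ico P (2 * P)).filter (fun m => m.Coprime (2 * b))).filter
        (fun m => ((m ^ 2 : ℕ) : ℤ) ∣ (NN b L A J p.1 : ℤ) - NN b L A J p.2)).card : ℝ) ≤ P := by
      exact_mod_cast this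
    linarith
  · rw [zero_add]
    have hne : NN b L A J p.1 ≠ NN b L A J p.2 := fun h => hxy (NN_inj hb L A J hA h)
    have hx := NN_le hb L A J hA p.1
    have hy := NN_le hb L A J hA p.2
    refine le_trans ?_ (hT ((NN b L A J p.1 : ℤ) - NN b L A J p.2).natAbs (by omega) (by omega))
    have : (((Ico P (2 * P)).filter (fun m => m.Coprime (2 * b))).filter
        (fun m => ((m ^ 2 : ℕ) : ℤ) ∣ (NN b L A J p.1 : ℤ) - NN b L A J p.2)) ⊆
        ((NN b L A J p.1 : ℤ) - NN b L A J p.2).natAbs.divisors := by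
      intro m hm
      rw [Finset.mem_filter] at hm
      rw [Nat.mem_divisors]
      refine ⟨?_, by omega⟩
      have h3 : (m ^ 2) ∣ ((NN b L A J p.1 : ℤ) - NN b L A J p.2).natAbs := by
        have := Int.natAbs_dvd_natAbs.2 hm.2
        rwa [Int.natAbs_natCast] at this
      exact (dvd_pow_self m (by norm_num)).trans h3
    exact_mod_cast Finset.card_le_card this

theorem taskSB : TaskSB := by
  intro b hb L A J P T hA hT hP hP1
  have hT1 : 0 ≤ T := by
    have := hT 1 le_rfl (Nat.one_le_pow _ _ (by omega))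
    exact (Nat.cast_nonneg _).trans this
  have hb0 : (0 : ℝ) < b := by exact_mod_cast (by omega : 0 < b)
  have h1 : ∑ m ∈ (Ico P (2 * P)).filter (fun m => m.Coprime (2 * b)),
      EM (m ^ 2) (fun α => Ps b L A J α ^ 2) =
      (∑ p : (Fin J → Fin b) × (Fin J → Fin b),
        ∑ m ∈ (Ico P (2 * P)).filter (fun m => m.Coprime (2 * b)),
          if ((m ^ 2 : ℕ) : ℤ) ∣ ((NN b L A J p.1 : ℤ) - NN b L A J p.2) then (1 : ℝ) else 0) /
        b ^ (2 * J) := by
    rw [Finset.sum_comm, Finset.sum_div]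
    refine Finset.sum_congr rfl fun m hm => ?_
    rw [Finset.mem_filter, Finset.mem_Ico] at hm
    exact EM_block L A J (m ^ 2) (pow_pos (by omega) 2)
  rw [h1, div_le_iff₀ (by positivity)]
  refine (Finset.sum_le_sum fun p _ => pair hb L A J P T hA hT hT1 p).trans ?_
  have h4 : ∑ p : (Fin J → Fin b) × (Fin J → Fin b), ((if p.1 = p.2 then (P : ℝ) else 0) + T) =
      b ^ J * P + b ^ J * b ^ J * T := by
    rw [Fintype.sum_prod_type]
    simp only [Finset.sum_add_distrib, Finset.sum_ite_eq, Finset.mem_univ, if_true,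
      Finset.sum_const, Finset.card_univ, Fintype.card_pi, Fintype.card_fin, Finset.prod_const,
      nsmul_eq_mul]
    push_cast
    ring
  rw [h4]
  have h5 : (P : ℝ) ≤ b * b ^ J := by exact_mod_cast hP
  have h6 : (b : ℝ) ^ (2 * J) = b ^ J * b ^ J := by rw [two_mul, pow_add]
  rw [h6]
  have h7 : (0 : ℝ) < b ^ J := by positivity
  nlinarith [mul_le_mul_of_nonneg_left h5 h7.le]

end Pool.Agent.H612K.PSB
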